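import Pool.Agent.H20.QN.B1

namespace H20.QN

open Filter Topology Set H23.QN

lemma norm_le_of_coef {ν ρ : ℝ} [Fact (1 ≤ ν)] [Fact (1 ≤ ρ)] (h : ν ≤ ρ) (a : WA ν ℂ)
    (b : WA ρ ℂ) (hab : ∀ k, a k = b k) : ‖a‖ ≤ ‖b‖ := by
  rw [WA.norm_def, WA.norm_def]
  refine (WA.summ a).tsum_le_tsum (fun k => ?_) (WA.summ b)
  rw [hab k]
  have hν : (0:ℝ) ≤ ν := zero_le_one.trans (one_le_nu ν)
  gcongr

/-- right derivative in terms of increments -/
lemma rderiv_iff {f : ℝ → ℂ} {f' : ℂ} {x : ℝ} :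
    HasDerivWithinAt f f' (Ici x) x ↔
      Tendsto (fun h : ℝ => h⁻¹ • (f (x + h) - f x)) (𝓝[>] 0) (𝓝 f') := by
  rw [← hasDerivWithinAt_Ioi_iff_Ici, hasDerivWithinAt_iff_tendsto_slope' (by simp)]
  constructor
  · intro H
    have h1 : Tendsto (fun h : ℝ => x + h) (𝓝[>] 0) (𝓝[>] x) := by
      refine tendsto_nhdsWithin_of_tendsto_nhds_of_eventually_within _ ?_ ?_
      · have : Tendsto (fun h : ℝ => x + h) (𝓝 0) (𝓝 (x + 0)) :=
          (continuous_const.add continuous_id).tendsto 0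
        rw [add_zero] at this
        exact this.mono_left nhdsWithin_le_nhds
      · filter_upwards [self_mem_nhdsWithin] with h hh
        have : (0:ℝ) < h := hh
        simp only [mem_Ioi]; linarith
    refine (H.comp h1).congr (fun h => ?_)
    simp [slope, vsub_eq_sub]
  · intro H
    have h1 : Tendsto (fun y : ℝ => y - x) (𝓝[>] x) (𝓝[>] 0) := by
      refine tendsto_nhdsWithin_of_tendsto_nhds_of_eventually_within _ ?_ ?_
      · have : Tendsto (fun y : ℝ => y - x) (𝓝 x) (𝓝 (x - x)) :=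
          (continuous_id.sub continuous_const).tendsto x
        rw [sub_self] at this
        exact this.mono_left nhdsWithin_le_nhds
      · filter_upwards [self_mem_nhdsWithin] with h hh
        have : x < h := hh
        simp only [mem_Ioi]; linarith
    refine (H.comp h1).congr (fun h => ?_)
    simp [slope, vsub_eq_sub]

section
variable {ν : ℝ} [Fact (1 ≤ ν)]

lemma sq_diff (X Y : WA ν ℂ) : X * X - Y * Y = (X - Y) * X + Y * (X - Y) := by
  rw [sub_mul, mul_sub]; abel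

lemma norm_I_smul (a : WA ν ℂ) : ‖Complex.I • a‖ = ‖a‖ := by
  rw [norm_smul, Complex.norm_I, one_mul]

/-- Lipschitz dependence on the datum -/
lemma lip (h2 : S_G2) {X Y : ℝ → WA ν ℂ} {L M : ℝ} (hL : 0 ≤ L) (hM : 0 ≤ M)
    (hX : ContinuousOn X (Icc 0 L)) (hY : ContinuousOn Y (Icc 0 L))
    (dX : ∀ k : ℤ, ∀ t ∈ Ico 0 L, HasDerivWithinAt (fun s => X s k)
      (Complex.I * (-((om k : ℂ) * X t k) + (X t * X t) k)) (Ici t) t)
    (dY : ∀ k : ℤ, ∀ t ∈ Ico 0 L, HasDerivWithinAt (fun s => Y s k)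
      (Complex.I * (-((om k : ℂ) * Y t k) + (Y t * Y t) k)) (Ici t) t)
    (bX : ∀ t ∈ Icc 0 L, ‖X t‖ ≤ M) (bY : ∀ t ∈ Icc 0 L, ‖Y t‖ ≤ M) :
    ∀ t ∈ Icc 0 L, ‖X t - Y t‖ ≤ ‖X 0 - Y 0‖ * Real.exp (2 * M * t) := by
  have hlin : IsLin Complex.I L (fun t => X t - Y t)
      (fun t => Complex.I • (X t * X t - Y t * Y t)) := by
    refine ⟨hX.sub hY, ((hX.mul hX).sub (hY.mul hY)).const_smul Complex.I, ?_⟩
    intro k t ht
    have h := (dX k t ht).sub (dY k t ht)
    refine (h.congr_deriv ?_).congr_of_eventuallyEq (Filter.Eventually.of_forall fun s => ?_) ?_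
    · simp only [WA.sub_apply, WA.smul_apply, smul_eq_mul]; ring
    · simp only [WA.sub_apply, Pi.sub_apply]
    · simp only [WA.sub_apply, Pi.sub_apply]
  have h := h2 ν Complex.I L (2 * M) 0 _ _ hL (by positivity) le_rfl (by simp) hlin (by
    intro t ht
    rw [norm_I_smul, add_zero, sq_diff]
    calc ‖(X t - Y t) * X t + Y t * (X t - Y t)‖
        ≤ ‖(X t - Y t) * X t‖ + ‖Y t * (X t - Y t)‖ := norm_add_le _ _
      _ ≤ ‖X t - Y t‖ * ‖X t‖ + ‖Y t‖ * ‖X t - Y t‖ :=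
          add_le_add (WA.norm_mul_le' _ _) (WA.norm_mul_le' _ _)
      _ ≤ ‖X t - Y t‖ * M + M * ‖X t - Y t‖ := by
          gcongr
          · exact bX t ht
          · exact bY t ht
      _ = 2 * M * ‖X t - Y t‖ := by ring)
  intro t ht
  simpa using h t ht

/-- the Cauchy–Riemann defect -/
lemma cr_est (h2 : S_G2) {X Y Z : ℝ → WA ν ℂ} {L M D : ℝ} (hL : 0 ≤ L) (hM : 0 ≤ M)
    (hX : ContinuousOn X (Icc 0 L)) (hY : ContinuousOn Y (Icc 0 L))
    (hZ : ContinuousOn Z (Icc 0 L))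
    (dX : ∀ k : ℤ, ∀ t ∈ Ico 0 L, HasDerivWithinAt (fun s => X s k)
      (Complex.I * (-((om k : ℂ) * X t k) + (X t * X t) k)) (Ici t) t)
    (dY : ∀ k : ℤ, ∀ t ∈ Ico 0 L, HasDerivWithinAt (fun s => Y s k)
      (Complex.I * (-((om k : ℂ) * Y t k) + (Y t * Y t) k)) (Ici t) t)
    (dZ : ∀ k : ℤ, ∀ t ∈ Ico 0 L, HasDerivWithinAt (fun s => Z s k)
      (Complex.I * (-((om k : ℂ) * Z t k) + (Z t * Z t) k)) (Ici t) t)
    (bX : ∀ t ∈ Icc 0 L, ‖X t‖ ≤ M) (bY : ∀ t ∈ Icc 0 L, ‖Y t - X t‖ ≤ D)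
    (bZ : ∀ t ∈ Icc 0 L, ‖Z t - X t‖ ≤ D) :
    ∀ t ∈ Icc 0 L, ‖(Z t - X t) - Complex.I • (Y t - X t)‖ ≤
      (‖(Z 0 - X 0) - Complex.I • (Y 0 - X 0)‖ + (2 * D ^ 2) * t) * Real.exp (2 * M * t) := by
  have hD : 0 ≤ D := (norm_nonneg _).trans (bY 0 ⟨le_rfl, hL⟩)
  have hlin : IsLin Complex.I L (fun t => (Z t - X t) - Complex.I • (Y t - X t))
      (fun t => Complex.I • ((Z t * Z t - X t * X t) - Complex.I • (Y t * Y t - X t * X t))) := by
    refine ⟨(hZ.sub hX).sub ((hY.sub hX).const_smul Complex.I),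
      (((hZ.mul hZ).sub (hX.mul hX)).sub
        (((hY.mul hY).sub (hX.mul hX)).const_smul Complex.I)).const_smul Complex.I, ?_⟩
    intro k t ht
    have h := ((dZ k t ht).sub (dX k t ht)).sub
      (((dY k t ht).sub (dX k t ht)).const_mul Complex.I)
    refine (h.congr_deriv ?_).congr_of_eventuallyEq (Filter.Eventually.of_forall fun s => ?_) ?_
    · simp only [WA.sub_apply, WA.smul_apply, smul_eq_mul]; ring
    · simp only [WA.sub_apply, WA.smul_apply, smul_eq_mul, Pi.sub_apply]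
    · simp only [WA.sub_apply, WA.smul_apply, smul_eq_mul, Pi.sub_apply]
  have h := h2 ν Complex.I L (2 * M) (2 * D ^ 2) _ _ hL (by positivity) (by positivity) (by simp)
    hlin (by
    intro t ht
    rw [norm_I_smul]
    set p := Z t - X t with hp
    set q := Y t - X t with hq
    have e1 : Z t = X t + p := by rw [hp]; abel
    have e2 : Y t = X t + q := by rw [hq]; abel
    have e3 : (Z t * Z t - X t * X t) - Complex.I • (Y t * Y t - X t * X t)
        = X t * (p - Complex.I • q) + X t * (p - Complex.I • q)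
          + (p * p - Complex.I • (q * q)) := by
      rw [e1, e2]
      simp only [add_mul, mul_add, mul_sub, WA.mul_smul', smul_sub, smul_add,
        mul_comm p (X t), mul_comm q (X t)]
      abel
    rw [e3]
    have hpD : ‖p‖ ≤ D := bZ t ht
    have hqD : ‖q‖ ≤ D := bY t ht
    have hXM := bX t ht
    have i1 : ‖X t * (p - Complex.I • q)‖ ≤ M * ‖p - Complex.I • q‖ :=
      (WA.norm_mul_le' _ _).trans (mul_le_mul_of_nonneg_right hXM (norm_nonneg _))
    have i2 : ‖p * p‖ ≤ D ^ 2 := by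
      refine (WA.norm_mul_le' _ _).trans ?_
      nlinarith [norm_nonneg p]
    have i3 : ‖Complex.I • (q * q)‖ ≤ D ^ 2 := by
      rw [norm_I_smul]
      refine (WA.norm_mul_le' _ _).trans ?_
      nlinarith [norm_nonneg q]
    calc _ ≤ ‖X t * (p - Complex.I • q) + X t * (p - Complex.I • q)‖
          + ‖p * p - Complex.I • (q * q)‖ := norm_add_le _ _
      _ ≤ (‖X t * (p - Complex.I • q)‖ + ‖X t * (p - Complex.I • q)‖)
          + (‖p * p‖ + ‖Complex.I • (q * q)‖) :=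
          add_le_add (norm_add_le _ _) (norm_sub_le _ _)
      _ ≤ 2 * M * ‖p - Complex.I • q‖ + 2 * D ^ 2 := by linarith)
  intro t ht
  simpa using h t ht

end

theorem B (h0 : S_B0) (h1 : S_B1) (h2 : S_G2) : S_B := by
  intro ν ρ _ _ hρ U V hU hV hUV
  have hνρ : ν ≤ ρ := by
    have := one_le_nu ν
    linarith
  have hcont0 : ContinuousOn (fun σ => V σ 0) (Ici 0) := by
    intro x hx
    have hux := hU.cont x hx
    rw [ContinuousWithinAt, tendsto_iff_norm_sub_tendsto_zero] at hux ⊢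
    refine squeeze_zero' (Filter.Eventually.of_forall fun _ => norm_nonneg _) ?_ hux
    filter_upwards [self_mem_nhdsWithin] with y hy
    refine norm_le_of_coef hνρ _ _ (fun k => ?_)
    rw [WA.sub_apply, WA.sub_apply, hUV y hy k, hUV x hx k]
  have hcont := h0 ν V hcont0 hV
  have hsqUV : ∀ x : ℝ, 0 ≤ x → ∀ k : ℤ, (V x 0 * V x 0 : WA ν ℂ) k = (U x * U x : WA ρ ℂ) k := by
    intro x hx k
    rw [WA.mul_apply, WA.mul_apply]
    exact tsum_congr (fun j => by rw [hUV x hx, hUV x hx])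
  refine ⟨hcont, ?_, fun σ hσ T hT k => (hV σ hσ).eqn T hT k⟩
  intro T hT σ hσ k
  -- the two expansions at time zero
  obtain ⟨G, hG, hG1⟩ := h1 ν ρ hρ 1 1 (fun t => V (σ + t) 0) (U σ) one_pos (by simp) (by simp)
    (by
      have : ContinuousOn (fun t : ℝ => σ + t) (Icc 0 1) := by fun_prop
      exact hcont0.comp this (fun t ht => by
        have := ht.1
        simp only [mem_Ici]; linarith))
    (by
      intro t ht k
      have ht0 : 0 ≤ σ + t := by linarith [ht.1]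
      have h := rderiv_iff.1 (hU.eqn (σ + t) ht0 k)
      rw [rderiv_iff]
      rw [one_mul, hUV _ ht0 k, hsqUV _ ht0 k]
      refine h.congr' ?_
      filter_upwards [self_mem_nhdsWithin] with h hh
      have hh0 : (0:ℝ) < h := hh
      have e : σ + (t + h) = σ + t + h := by ring
      rw [e, hUV _ (by linarith : 0 ≤ σ + t + h) k])
    (by intro k; simp only [add_zero]; exact hUV σ hσ k)
  obtain ⟨G', hG', hG2⟩ := h1 ν ρ hρ Complex.I 1 (V σ) (U σ) one_pos (by simp) (by simp)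
    ((hV σ hσ).cont.mono (fun t ht => ht.1))
    (fun t ht k => (hV σ hσ).eqn t ht.1 k) (fun k => hUV σ hσ k)
  have hGG : G' = G := by
    ext k; rw [hG', hG]; simp
  rw [hGG] at hG2
  simp only [add_zero] at hG1
  -- uniform bound
  obtain ⟨M0, hM0⟩ := (isCompact_Icc.prod isCompact_Icc :
    IsCompact (Icc σ (σ + 1) ×ˢ Icc (0:ℝ) (T + 1))).exists_bound_of_continuousOn
    (f := fun p : ℝ × ℝ => V p.1 p.2) (hcont.mono (fun p hp => ⟨hσ.trans hp.1.1, hp.2.1⟩))
  set M : ℝ := max M0 0 with hM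
  have hMnn : 0 ≤ M := le_max_right _ _
  have hVM : ∀ x ∈ Icc σ (σ + 1), ∀ y ∈ Icc (0:ℝ) (T + 1), ‖V x y‖ ≤ M := fun x hx y hy =>
    (hM0 (x, y) ⟨hx, hy⟩).trans (le_max_left _ _)
  set C : ℝ := ‖G‖ + 1 with hC
  set K : ℝ := Real.exp (2 * M * T) with hK
  have hKpos : 0 < K := Real.exp_pos _
  set r1 : ℝ → ℝ := fun h => h⁻¹ * ‖V (σ + h) 0 - V σ 0 - (h : ℂ) • ((1:ℂ) • G)‖ with hr1
  set r2 : ℝ → ℝ := fun h => h⁻¹ * ‖V σ h - V σ 0 - (h : ℂ) • (Complex.I • G)‖ with hr2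
  set E : ℝ → WA ν ℂ := fun h =>
    (V σ (T + h) - V σ T) - Complex.I • (V (σ + h) T - V σ T) with hE
  have hEbound : ∀ᶠ h in 𝓝[>] (0:ℝ), h⁻¹ * ‖E h‖ ≤
      ((r2 h + r1 h) + 2 * (C * K) ^ 2 * T * h) * K := by
    have e1 : ∀ᶠ h in 𝓝[>] (0:ℝ), r1 h < 1 := (hG1.eventually (gt_mem_nhds one_pos))
    have e2 : ∀ᶠ h in 𝓝[>] (0:ℝ), r2 h < 1 := (hG2.eventually (gt_mem_nhds one_pos))
    have e3 : ∀ᶠ h in 𝓝[>] (0:ℝ), h < 1 := by
      refine (tendsto_id.mono_left nhdsWithin_le_nhds).eventually (gt_mem_nhds one_pos)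
    filter_upwards [e1, e2, e3, self_mem_nhdsWithin] with h he1 he2 he3 hh
    have hh0 : (0:ℝ) < h := hh
    have hσh : 0 ≤ σ + h := by linarith
    -- increments at time zero
    have q1 : ‖V (σ + h) 0 - V σ 0 - (h : ℂ) • ((1:ℂ) • G)‖ = h * r1 h := by
      simp only [hr1]; field_simp
    have q2 : ‖V σ h - V σ 0 - (h : ℂ) • (Complex.I • G)‖ = h * r2 h := by
      simp only [hr2]; field_simp
    have n1 : ‖V (σ + h) 0 - V σ 0‖ ≤ C * h := by
      have e : V (σ + h) 0 - V σ 0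
          = (V (σ + h) 0 - V σ 0 - (h : ℂ) • ((1:ℂ) • G)) + (h : ℂ) • ((1:ℂ) • G) := by abel
      rw [e]
      refine (norm_add_le _ _).trans ?_
      rw [q1, norm_smul, norm_smul, Complex.norm_real, Real.norm_of_nonneg hh0.le, norm_one,
        one_mul, hC]
      nlinarith [norm_nonneg G]
    have n2 : ‖V σ h - V σ 0‖ ≤ C * h := by
      have e : V σ h - V σ 0
          = (V σ h - V σ 0 - (h : ℂ) • (Complex.I • G)) + (h : ℂ) • (Complex.I • G) := by abel
      rw [e]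
      refine (norm_add_le _ _).trans ?_
      rw [q2, norm_smul, norm_smul, Complex.norm_real, Real.norm_of_nonneg hh0.le, Complex.norm_I,
        one_mul, hC]
      nlinarith [norm_nonneg G]
    -- data on [0, T]
    have cX : ContinuousOn (V σ) (Icc 0 T) := (hV σ hσ).cont.mono (fun t ht => ht.1)
    have cY : ContinuousOn (V (σ + h)) (Icc 0 T) := (hV (σ + h) hσh).cont.mono (fun t ht => ht.1)
    have cZ : ContinuousOn (fun t => V σ (t + h)) (Icc 0 T) := by
      have : ContinuousOn (fun t : ℝ => t + h) (Icc 0 T) := by fun_prop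
      exact (hV σ hσ).cont.comp this (fun t ht => by
        have := ht.1
        simp only [mem_Ici]; linarith)
    have dX : ∀ k : ℤ, ∀ t ∈ Ico 0 T, HasDerivWithinAt (fun s => V σ s k)
        (Complex.I * (-((om k : ℂ) * V σ t k) + (V σ t * V σ t) k)) (Ici t) t :=
      fun k t ht => (hV σ hσ).eqn t ht.1 k
    have dY : ∀ k : ℤ, ∀ t ∈ Ico 0 T, HasDerivWithinAt (fun s => V (σ + h) s k)
        (Complex.I * (-((om k : ℂ) * V (σ + h) t k) + (V (σ + h) t * V (σ + h) t) k)) (Ici t) t :=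
      fun k t ht => (hV (σ + h) hσh).eqn t ht.1 k
    have dZ : ∀ k : ℤ, ∀ t ∈ Ico 0 T, HasDerivWithinAt (fun s => V σ (s + h) k)
        (Complex.I * (-((om k : ℂ) * V σ (t + h) k) + (V σ (t + h) * V σ (t + h)) k))
        (Ici t) t := by
      intro k t ht
      have h' := rderiv_iff.1 ((hV σ hσ).eqn (t + h) (by linarith [ht.1]) k)
      rw [rderiv_iff]
      refine h'.congr (fun u => ?_)
      rw [add_right_comm]
    have bX : ∀ t ∈ Icc 0 T, ‖V σ t‖ ≤ M := fun t ht =>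
      hVM σ ⟨le_rfl, by linarith⟩ t ⟨ht.1, by linarith [ht.2]⟩
    have bY : ∀ t ∈ Icc 0 T, ‖V (σ + h) t‖ ≤ M := fun t ht =>
      hVM (σ + h) ⟨by linarith, by linarith⟩ t ⟨ht.1, by linarith [ht.2]⟩
    have bZ : ∀ t ∈ Icc 0 T, ‖V σ (t + h)‖ ≤ M := fun t ht =>
      hVM σ ⟨le_rfl, by linarith⟩ (t + h) ⟨by linarith [ht.1], by linarith [ht.2]⟩
    have hexp : ∀ t ∈ Icc 0 T, Real.exp (2 * M * t) ≤ K := by
      intro t ht
      rw [hK]
      apply Real.exp_le_exp.2
      have := ht.2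
      nlinarith
    have lY : ∀ t ∈ Icc 0 T, ‖V (σ + h) t - V σ t‖ ≤ C * h * K := by
      intro t ht
      refine (lip h2 hT hMnn cY cX dY dX bY bX t ht).trans ?_
      exact mul_le_mul n1 (hexp t ht) (Real.exp_pos _).le (by positivity)
    have lZ : ∀ t ∈ Icc 0 T, ‖V σ (t + h) - V σ t‖ ≤ C * h * K := by
      intro t ht
      refine (lip h2 hT hMnn cZ cX dZ dX bZ bX t ht).trans ?_
      refine mul_le_mul ?_ (hexp t ht) (Real.exp_pos _).le (by positivity)
      simpa using n2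
    have hcr := cr_est h2 hT hMnn cX cY cZ dX dY dZ bX lY lZ T ⟨hT, le_rfl⟩
    simp only [zero_add] at hcr
    have hE0 : ‖(V σ h - V σ 0) - Complex.I • (V (σ + h) 0 - V σ 0)‖ ≤ h * (r2 h + r1 h) := by
      have e : (V σ h - V σ 0) - Complex.I • (V (σ + h) 0 - V σ 0)
          = (V σ h - V σ 0 - (h : ℂ) • (Complex.I • G))
            - Complex.I • (V (σ + h) 0 - V σ 0 - (h : ℂ) • ((1:ℂ) • G)) := by
        rw [one_smul, smul_sub (Complex.I) (V (σ + h) 0 - V σ 0) ((h:ℂ) • G),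
          smul_comm Complex.I (h:ℂ) G]
        abel
      rw [e]
      refine (norm_sub_le _ _).trans ?_
      rw [norm_I_smul, q1, q2]
      exact le_of_eq (by ring)
    have hfin : ‖E h‖ ≤ (h * (r2 h + r1 h) + 2 * (C * h * K) ^ 2 * T) * K := by
      refine hcr.trans ?_
      rw [← hK]
      gcongr
    calc h⁻¹ * ‖E h‖ ≤ h⁻¹ * ((h * (r2 h + r1 h) + 2 * (C * h * K) ^ 2 * T) * K) :=
          mul_le_mul_of_nonneg_left hfin (inv_nonneg.2 hh0.le)
      _ = ((r2 h + r1 h) + 2 * (C * K) ^ 2 * T * h) * K := by field_simp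
  have hElim : Tendsto (fun h : ℝ => h⁻¹ * ‖E h‖) (𝓝[>] 0) (𝓝 0) := by
    have hlim : Tendsto (fun h : ℝ => ((r2 h + r1 h) + 2 * (C * K) ^ 2 * T * h) * K)
        (𝓝[>] 0) (𝓝 (((0 + 0) + 2 * (C * K) ^ 2 * T * 0) * K)) := by
      refine ((hG2.add hG1).add (Tendsto.const_mul _ ?_)).mul_const K
      exact tendsto_id.mono_left nhdsWithin_le_nhds
    simp only [add_zero, mul_zero, zero_mul] at hlim
    refine squeeze_zero' ?_ hEbound hlim
    filter_upwards [self_mem_nhdsWithin] with h hh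
    have hh0 : (0:ℝ) < h := hh
    positivity
  have hEk : Tendsto (fun h : ℝ => h⁻¹ • (E h k)) (𝓝[>] 0) (𝓝 0) := by
    rw [tendsto_zero_iff_norm_tendsto_zero]
    refine squeeze_zero' (Filter.Eventually.of_forall fun _ => norm_nonneg _) ?_ hElim
    filter_upwards [self_mem_nhdsWithin] with h hh
    have hh0 : (0:ℝ) < h := hh
    rw [norm_smul, norm_inv, Real.norm_of_nonneg hh0.le]
    exact mul_le_mul_of_nonneg_left (WA.coef_le _ _) (inv_nonneg.2 hh0.le)
  have hvert := rderiv_iff.1 ((hV σ hσ).eqn T hT k)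
  rw [rderiv_iff]
  have hsum := (hvert.const_mul (-Complex.I)).add (hEk.const_mul Complex.I)
  refine (hsum.congr (fun h => ?_)).trans_eq ?_
  · simp only [hE, WA.sub_apply, WA.smul_apply, smul_eq_mul, Complex.real_smul]
    linear_combination (-((h⁻¹ : ℝ) : ℂ) * (V (σ + h) T k - V σ T k)) * Complex.I_sq
  · congr 1
    linear_combination (-(-((om k : ℂ) * V σ T k) + (V σ T * V σ T) k)) * Complex.I_sq

end H20.QN
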