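import Pool.Agent.H23.QN.AuxQP

namespace H20.QN

open Filter Topology Set H23.QN

lemma pow_four_le_nat (n : ℕ) : n ^ 4 ≤ 32 * 2 ^ n := by
  rcases Nat.lt_or_ge n 6 with h | h
  · interval_cases n <;> norm_num
  · induction n, h using Nat.le_induction with
    | base => norm_num
    | succ m hm ih =>
      have h1 : (m + 1) ^ 4 ≤ 2 * m ^ 4 := by
        have h2 : 6 * m ^ 3 ≤ m ^ 4 := by
          calc 6 * m ^ 3 ≤ m * m ^ 3 := Nat.mul_le_mul_right _ hm
            _ = m ^ 4 := by ring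
        have h3 : 6 * m ^ 2 ≤ m ^ 3 := by
          calc 6 * m ^ 2 ≤ m * m ^ 2 := Nat.mul_le_mul_right _ hm
            _ = m ^ 3 := by ring
        have h4 : 6 * m ≤ m ^ 2 := by
          calc 6 * m ≤ m * m := Nat.mul_le_mul_right _ hm
            _ = m ^ 2 := by ring
        have h5 : (m + 1) ^ 4 = m ^ 4 + 4 * m ^ 3 + 6 * m ^ 2 + 4 * m + 1 := by ring
        omega
      calc (m + 1) ^ 4 ≤ 2 * m ^ 4 := h1
        _ ≤ 2 * (32 * 2 ^ m) := Nat.mul_le_mul_left _ ih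
        _ = 32 * 2 ^ (m + 1) := by ring

lemma int_pow_four_le (k : ℤ) : (k : ℝ) ^ 4 ≤ 32 * 2 ^ k.natAbs := by
  have h := pow_four_le_nat k.natAbs
  have h2 : ((k.natAbs : ℕ) : ℝ) ^ 4 = (k : ℝ) ^ 4 := by
    have h3 : ((k.natAbs : ℕ) : ℝ) = |(k : ℝ)| := by
      rw [Nat.cast_natAbs]; push_cast; rfl
    rw [h3, ← abs_pow, abs_of_nonneg (by positivity)]
  rw [← h2]
  exact_mod_cast h

lemma int_sq_le (k : ℤ) : (k : ℝ) ^ 2 ≤ 32 * 2 ^ k.natAbs := by
  refine le_trans ?_ (int_pow_four_le k)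
  rcases eq_or_ne k 0 with h | h
  · subst h; simp
  · have h1 : (1:ℝ) ≤ (k:ℝ) ^ 2 := by
      have : 1 ≤ k ^ 2 := by
        have := Int.one_le_abs h
        nlinarith [sq_abs k]
      exact_mod_cast this
    nlinarith

/-- a polynomial weight is absorbed by the gain of radius -/
lemma summ_weight {ν ρ : ℝ} [Fact (1 ≤ ν)] [Fact (1 ≤ ρ)] (h : 2 * ν ≤ ρ) (a : WA ρ ℂ)
    (w : ℤ → ℝ) (C : ℝ) (hw : ∀ k, |w k| ≤ C * 2 ^ k.natAbs) :
    Summable fun k => ‖(w k : ℂ) * a k‖ * ν ^ k.natAbs := by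
  refine Summable.of_nonneg_of_le
    (fun k => mul_nonneg (norm_nonneg _) (wt_pos ν k).le) (fun k => ?_) ((WA.summ a).mul_left C)
  rw [norm_mul, Complex.norm_real, Real.norm_eq_abs]
  have hν : (0:ℝ) < ν := lt_of_lt_of_le one_pos (one_le_nu ν)
  have h1 : (2 * ν) ^ k.natAbs ≤ ρ ^ k.natAbs := pow_le_pow_left₀ (by positivity) h _
  rw [mul_pow] at h1
  have hC : 0 ≤ C := by
    have := (abs_nonneg _).trans (hw 0)
    simpa using this
  calc |w k| * ‖a k‖ * ν ^ k.natAbs ≤ (C * 2 ^ k.natAbs) * ‖a k‖ * ν ^ k.natAbs := by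
        gcongr
        exact hw k
    _ = C * (‖a k‖ * (2 ^ k.natAbs * ν ^ k.natAbs)) := by ring
    _ ≤ C * (‖a k‖ * ρ ^ k.natAbs) := by gcongr

lemma om_abs_le (k : ℤ) : |om k| ≤ (4 * Real.pi ^ 2 * 32) * 2 ^ k.natAbs := by
  rw [abs_of_nonneg (om_nonneg k)]
  unfold om
  have := int_sq_le k
  have h2 : 0 ≤ 4 * Real.pi ^ 2 := by positivity
  nlinarith

lemma om_sq_abs_le (k : ℤ) : |om k ^ 2| ≤ ((4 * Real.pi ^ 2) ^ 2 * 32) * 2 ^ k.natAbs := by
  rw [abs_of_nonneg (sq_nonneg _)]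
  unfold om
  have := int_pow_four_le k
  have h2 : 0 ≤ (4 * Real.pi ^ 2) ^ 2 := by positivity
  calc (4 * Real.pi ^ 2 * (k:ℝ) ^ 2) ^ 2 = (4 * Real.pi ^ 2) ^ 2 * (k:ℝ) ^ 4 := by ring
    _ ≤ (4 * Real.pi ^ 2) ^ 2 * (32 * 2 ^ k.natAbs) := mul_le_mul_of_nonneg_left this h2
    _ = _ := by ring

lemma one_abs_le (k : ℤ) : |(1:ℝ)| ≤ 1 * 2 ^ k.natAbs := by
  rw [abs_one, one_mul]
  exact one_le_pow₀ (by norm_num)

theorem B1 (hL1 : S_L1) : S_B1 := by
  intro ν ρ _ _ hρ c L U b hL hc hcn hU hder hU0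
  have hsq : ∀ k : ℤ, (U 0 * U 0 : WA ν ℂ) k = (b * b : WA ρ ℂ) k := by
    intro k
    rw [WA.mul_apply, WA.mul_apply]
    exact tsum_congr (fun j => by rw [hU0, hU0])
  -- the four elements
  set A1 : WA ν ℂ := WA.mk (fun k => (om k : ℂ) * b k) (summ_weight hρ b om _ om_abs_le) with hA1
  set A2 : WA ν ℂ := WA.mk (fun k => ((1:ℝ) : ℂ) * (b * b : WA ρ ℂ) k)
    (summ_weight hρ (b * b) (fun _ => 1) 1 one_abs_le) with hA2
  set B1' : WA ν ℂ := WA.mk (fun k => ((om k ^ 2 : ℝ) : ℂ) * b k)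
    (summ_weight hρ b (fun k => om k ^ 2) _ om_sq_abs_le) with hB1
  set B2 : WA ν ℂ := WA.mk (fun k => (om k : ℂ) * (b * b : WA ρ ℂ) k)
    (summ_weight hρ (b * b) om _ om_abs_le) with hB2
  set G : WA ν ℂ := -A1 + A2 with hG
  set H : WA ν ℂ := -B1' + B2 with hH
  have hGk : ∀ k : ℤ, G k = -((om k : ℂ) * U 0 k) + (U 0 * U 0) k := by
    intro k
    rw [hsq k, hU0 k, hG, WA.add_apply, WA.neg_apply, hA1, hA2, WA.mk_apply, WA.mk_apply]
    simp
  have hHk : ∀ k : ℤ, H k = (om k : ℂ) * G k := by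
    intro k
    rw [hG, hH, WA.add_apply, WA.add_apply, WA.neg_apply, WA.neg_apply, hA1, hA2, hB1, hB2,
      WA.mk_apply, WA.mk_apply, WA.mk_apply, WA.mk_apply]
    push_cast
    ring
  refine ⟨G, hGk, ?_⟩
  set R : ℝ → WA ν ℂ := fun t => U t - U 0 - (t : ℂ) • (c • G) with hR
  set N : ℝ → WA ν ℂ := fun t => c • (U t * U t - U 0 * U 0) - (t : ℂ) • ((c * c) • H) with hN
  have hofr : Continuous fun t : ℝ => (t : ℂ) := Complex.continuous_ofReal
  have hcontN : ContinuousOn N (Icc 0 L) := by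
    have h1 : ContinuousOn (fun t => U t * U t) (Icc 0 L) := hU.mul hU
    exact ((h1.sub continuousOn_const).const_smul c).sub
      ((hofr.smul continuous_const).continuousOn)
  have hlin : IsLin c L R N := by
    refine ⟨?_, hcontN, ?_⟩
    · exact (hU.sub continuousOn_const).sub ((hofr.smul continuous_const).continuousOn)
    · intro k t ht
      have h1 := hder t ht k
      have h2 : HasDerivWithinAt (fun s : ℝ => (s : ℂ) * (c * G k)) (c * G k) (Ici t) t := by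
        have h3 : HasDerivAt (fun s : ℝ => (s : ℂ)) 1 t := Complex.ofRealCLM.hasDerivAt
        simpa using (h3.mul_const (c * G k)).hasDerivWithinAt
      have h4 := (h1.sub_const (U 0 k)).sub h2
      refine (h4.congr_deriv ?_).congr_of_eventuallyEq ?_ ?_
      · simp only [hR, hN, WA.sub_apply, WA.smul_apply, smul_eq_mul]
        rw [hHk k]
        have := hGk k
        linear_combination (-c) * this
      · exact Filter.Eventually.of_forall (fun s => by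
          simp only [hR, WA.sub_apply, WA.smul_apply, smul_eq_mul, Pi.sub_apply])
      · simp only [hR, WA.sub_apply, WA.smul_apply, smul_eq_mul, Pi.sub_apply]
  have hR0 : R 0 = 0 := by simp [hR]
  have hN0 : N 0 = 0 := by simp [hN]
  have hkey : ∀ t ∈ Icc 0 L, ‖R t‖ ≤ ∫ τ in (0:ℝ)..t, ‖N τ‖ := by
    intro t ht
    have h1 := hL1 ν c L 0 R N hL.le hlin
      (fun k => Or.inr (mul_nonneg hc (om_nonneg k))) t ht
    simpa [hR0] using h1
  -- smallness of N near zero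
  rw [Metric.tendsto_nhdsWithin_nhds]
  intro ε hε
  have hcN : ContinuousWithinAt N (Icc 0 L) 0 := hcontN 0 ⟨le_rfl, hL.le⟩
  rw [Metric.continuousWithinAt_iff] at hcN
  obtain ⟨δ, hδ, hδN⟩ := hcN (ε / 2) (by linarith)
  refine ⟨min δ L, lt_min hδ hL, ?_⟩
  intro h hh hd
  have hh0 : 0 < h := hh
  rw [Real.dist_eq, sub_zero, abs_of_pos hh0] at hd
  have hhδ : h < δ := lt_of_lt_of_le hd (min_le_left _ _)
  have hhL : h < L := lt_of_lt_of_le hd (min_le_right _ _)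
  have hb : ∀ τ ∈ Icc 0 h, ‖N τ‖ ≤ ε / 2 := by
    intro τ hτ
    have h1 := hδN (x := τ) ⟨hτ.1, hτ.2.trans hhL.le⟩ (by
      rw [Real.dist_eq, sub_zero, abs_of_nonneg hτ.1]; exact lt_of_le_of_lt hτ.2 hhδ)
    rw [hN0, dist_zero_right] at h1
    exact h1.le
  have hint : ∫ τ in (0:ℝ)..h, ‖N τ‖ ≤ (ε / 2) * h := by
    have h1 : ∫ τ in (0:ℝ)..h, ‖N τ‖ ≤ ∫ τ in (0:ℝ)..h, ε / 2 := by
      refine intervalIntegral.integral_mono_on hh0.le ?_ ?_ hb
      · apply ContinuousOn.intervalIntegrable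
        rw [uIcc_of_le hh0.le]
        exact (hcontN.mono (Icc_subset_Icc_right hhL.le)).norm
      · exact intervalIntegrable_const
    refine h1.trans (le_of_eq ?_)
    rw [intervalIntegral.integral_const, smul_eq_mul]
    ring
  have hfin : ‖R h‖ ≤ (ε / 2) * h := (hkey h ⟨hh0.le, hhL.le⟩).trans hint
  rw [dist_zero_right, Real.norm_eq_abs, abs_of_nonneg (mul_nonneg (inv_nonneg.2 hh0.le) (norm_nonneg _))]
  calc h⁻¹ * ‖U h - U 0 - (h : ℂ) • (c • G)‖ = h⁻¹ * ‖R h‖ := rfl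
    _ ≤ h⁻¹ * ((ε / 2) * h) := mul_le_mul_of_nonneg_left hfin (inv_nonneg.2 hh0.le)
    _ = ε / 2 := by field_simp
    _ < ε := by linarith

end H20.QN
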